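import Pool.Agent.Helper17.PP.GoalsC2

/-!
# Project PP (MP_fc6b1e_nt), packet PP-C_SML: the small moduli
-/

set_option autoImplicit false

namespace Pool.Agent.Helper82.PP

open Finset Pool.Agent.Helper17.PP

section basics

variable {p : ℕ} {B B₀ k U Λ C : Type} [Field k] [AddCommGroup U] [Module k U]
    [AddCommGroup Λ] [Module k Λ] [AddCommGroup C] (S : Sys p B B₀ k U Λ C)

open Classical in
/-- the indicator of the conditions on `y` -/
noncomputable def AA (ψ : AddChar k ℂ) (D : Finset B) (χ : AddChar Λ ℂ) (y : B → k) : ℝ :=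
  if (∀ q' ∈ D, y q' ≠ 0) ∧ (∀ x : U, S.fU ψ χ D y x = 1) then 1 else 0

open Classical in
/-- the multiplicative function -/
noncomputable def ff (ψ : AddChar k ℂ) (j : ℕ) (D : Finset B) (χ : AddChar Λ ℂ) (y : B → k)
    (q : B) : ℝ :=
  if S.spl q ∧ (∀ q' ∈ D, S.bs q' ≠ S.bs q) ∧ S.bl q < j ∧ ∃ t : k, S.fB ψ χ D y q t ≠ 1
  then 0 else 1

lemma AA_nonneg (ψ : AddChar k ℂ) (D : Finset B) (χ : AddChar Λ ℂ) (y : B → k) :
    0 ≤ AA S ψ D χ y := by
  unfold AA; split_ifs <;> norm_num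

lemma AA_le (ψ : AddChar k ℂ) (D : Finset B) (χ : AddChar Λ ℂ) (y : B → k) :
    AA S ψ D χ y ≤ 1 := by
  unfold AA; split_ifs <;> norm_num

lemma ff_nonneg (ψ : AddChar k ℂ) (j : ℕ) (D : Finset B) (χ : AddChar Λ ℂ) (y : B → k) (q : B) :
    0 ≤ ff S ψ j D χ y q := by
  unfold ff; split_ifs <;> norm_num

lemma ff_le (ψ : AddChar k ℂ) (j : ℕ) (D : Finset B) (χ : AddChar Λ ℂ) (y : B → k) (q : B) :
    ff S ψ j D χ y q ≤ 1 := by
  unfold ff; split_ifs <;> norm_num

lemma fU_congr (ψ : AddChar k ℂ) (D : Finset B) (χ : AddChar Λ ℂ) {y z : B → k}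
    (h : ∀ q ∈ D, y q = z q) (x : U) : S.fU ψ χ D y x = S.fU ψ χ D z x := by
  unfold Sys.fU
  congr 1
  exact Finset.prod_congr rfl fun q hq => by rw [h q hq]

lemma fB_congr (ψ : AddChar k ℂ) (D : Finset B) (χ : AddChar Λ ℂ) {y z : B → k}
    (h : ∀ q ∈ D, y q = z q) (q : B) (t : k) : S.fB ψ χ D y q t = S.fB ψ χ D z q t := by
  unfold Sys.fB
  congr 1
  exact Finset.prod_congr rfl fun q' hq => by rw [h q' hq]

lemma AA_congr (ψ : AddChar k ℂ) (D : Finset B) (χ : AddChar Λ ℂ) {y z : B → k}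
    (h : ∀ q ∈ D, y q = z q) : AA S ψ D χ y = AA S ψ D χ z := by
  have h1 : ((∀ q' ∈ D, y q' ≠ 0) ∧ (∀ x : U, S.fU ψ χ D y x = 1)) ↔
      ((∀ q' ∈ D, z q' ≠ 0) ∧ (∀ x : U, S.fU ψ χ D z x = 1)) := by
    constructor
    · rintro ⟨h2, h3⟩
      exact ⟨fun q hq => by rw [← h q hq]; exact h2 q hq,
        fun x => by rw [← fU_congr S ψ D χ h]; exact h3 x⟩
    · rintro ⟨h2, h3⟩
      exact ⟨fun q hq => by rw [h q hq]; exact h2 q hq,
        fun x => by rw [fU_congr S ψ D χ h]; exact h3 x⟩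
  classical
  unfold AA
  exact if_congr h1 rfl rfl

lemma ff_congr (ψ : AddChar k ℂ) (j : ℕ) (D : Finset B) (χ : AddChar Λ ℂ) {y z : B → k}
    (h : ∀ q ∈ D, y q = z q) (q : B) : ff S ψ j D χ y q = ff S ψ j D χ z q := by
  classical
  unfold ff
  refine if_congr ?_ rfl rfl
  have h1 : (∃ t : k, S.fB ψ χ D y q t ≠ 1) ↔ ∃ t : k, S.fB ψ χ D z q t ≠ 1 := by
    constructor
    · rintro ⟨t, ht⟩
      exact ⟨t, by rw [← fB_congr S ψ D χ h]; exact ht⟩
    · rintro ⟨t, ht⟩
      exact ⟨t, by rw [fB_congr S ψ D χ h]; exact ht⟩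
  rw [h1]

lemma N_pos (q : B) : 0 < S.N q := lt_of_lt_of_le two_pos (S.two_le q)

lemma nm_pos (D : Finset B) : 0 < S.nm D := Finset.prod_pos fun q _ => N_pos S q

lemma le_nm {D : Finset B} {q : B} (hq : q ∈ D) : S.N q ≤ S.nm D :=
  Nat.le_of_dvd (nm_pos S D) (Finset.dvd_prod_of_mem _ hq)

lemma nm_lt {D : Finset B} {I : ℕ} (h : Nat.log 2 (S.nm D) < I) : S.nm D < 2 ^ I :=
  lt_of_lt_of_le (Nat.lt_pow_succ_log_self one_lt_two _)
    (Nat.pow_le_pow_right two_pos h)

lemma mem_upto {q : B} {Y : ℝ} (hY : 0 ≤ Y) : q ∈ S.upto Y ↔ (S.N q : ℝ) ≤ Y := by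
  unfold Sys.upto
  rw [Set.Finite.mem_toFinset, Set.mem_setOf_eq, Nat.le_floor_iff hY]

lemma mem_below {q : B} {n : ℕ} : q ∈ S.below n ↔ S.bl q < n := by
  classical
  unfold Sys.below
  rw [mem_filter, Set.Finite.mem_toFinset, Set.mem_setOf_eq]
  constructor
  · exact fun h => h.2
  · intro h
    refine ⟨?_, h⟩
    exact (lt_of_lt_of_le (Nat.lt_pow_succ_log_self one_lt_two _)
      (Nat.pow_le_pow_right two_pos h)).le

lemma mem_blk {q : B} {j : ℕ} : q ∈ S.blk j ↔ S.bl q = j := by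
  classical
  unfold Sys.blk
  rw [mem_filter, Set.Finite.mem_toFinset, Set.mem_setOf_eq]
  constructor
  · exact fun h => h.2
  · intro h
    refine ⟨?_, h⟩
    rw [← h]
    exact (Nat.lt_pow_succ_log_self one_lt_two _).le

lemma bl_pos (q : B) : 1 ≤ S.bl q := by
  unfold Sys.bl
  exact Nat.log_pos one_lt_two (S.two_le q)

lemma N_lt (q : B) : S.N q < 2 ^ (S.bl q + 1) := Nat.lt_pow_succ_log_self one_lt_two _

lemma le_N (q : B) : 2 ^ (S.bl q) ≤ S.N q := Nat.pow_log_le_self 2 (N_pos S q).ne'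

end basics

section part

variable {p : ℕ} [Fact p.Prime] {B B₀ k U Λ C : Type} [Field k] [Fintype k] [Algebra (ZMod p) k]
    [AddCommGroup U] [Module k U] [Fintype U] [AddCommGroup Λ] [Module k Λ] [Fintype Λ]
    [AddCommGroup C] (S : Sys p B B₀ k U Λ C)

open Classical in
lemma part_le (hlab : C_LAB) (hpsm : C_PSM) (ψ : AddChar k ℂ) (E : ℕ) (P b : Finset B) (q : B)
    (hbP : b ⊆ P) (hq : q ∈ b) (hth : S.bl q ≤ th E (S.bl q)) (D : Finset B)
    (hD : D ⊆ S.rg E b q) (χ : AddChar Λ ℂ) :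
    ‖S.part ψ E P b q D χ‖ ≤ (Fintype.card U * Fintype.card k *
      (Fintype.card k : ℝ) ^ D.card / (lab k P).card) *
      ∑ y ∈ lab k P, AA S ψ D χ y * ∏ q'' ∈ (b.erase q) \ D, ff S ψ (S.bl q) D χ y q'' := by
  obtain ⟨hl1, -, -, hl4, -⟩ := hlab B k P
  set D' := S.rg E b q \ D with hD'
  have hrgb : S.rg E b q ⊆ b.erase q := by
    unfold Sys.rg; exact filter_subset _ _
  have hD'P : D' ⊆ P := (sdiff_subset.trans hrgb).trans ((erase_subset _ _).trans hbP)
  set F : (B → k) → ℝ := fun y => AA S ψ D χ y *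
    ∏ q'' ∈ (b.erase q) \ D, ff S ψ (S.bl q) D χ y q'' with hF
  have hF0 : ∀ y, 0 ≤ F y := fun y =>
    mul_nonneg (AA_nonneg S ψ D χ y) (Finset.prod_nonneg fun q _ => ff_nonneg S ψ _ D χ y q)
  have hFinv : ∀ f ∈ lab k P, ∀ z ∈ lab k D', ((F (f + z) : ℝ) : ℂ) = ((F f : ℝ) : ℂ) := by
    intro f _ z hz
    have h1 : ∀ q ∈ D, (f + z) q = f q := by
      intro q hq
      have h2 : z q = 0 := mem_lab.1 hz q (by
        rw [hD', mem_sdiff]; exact fun h => h.2 hq)
      simp [h2]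
    simp only [hF]
    rw [AA_congr S ψ D χ h1]
    congr 2
    exact Finset.prod_congr rfl fun q _ => ff_congr S ψ _ D χ h1 q
  have h4 := hl4 (fun y => ((F y : ℝ) : ℂ)) D' hD'P hFinv
  have h5 : (Fintype.card k : ℝ) ^ D'.card * ∑ f ∈ lab k P with (∀ q ∈ D', f q = 0), F f =
      ∑ f ∈ lab k P, F f := by
    exact_mod_cast h4
  -- the cardinality
  have h6 : (((lab k P).filter fun y ↦ (∀ q' ∈ S.rg E b q, y q' ≠ 0 ↔ q' ∈ D) ∧
        (∀ x : U, S.fU ψ χ D y x = 1) ∧
        ∀ q'' ∈ S.rs b q, q'' ∉ D → ∀ t : k, S.fB ψ χ D y q'' t = 1).card : ℝ) ≤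
      ∑ f ∈ lab k P with (∀ q ∈ D', f q = 0), F f := by
    rw [Finset.card_eq_sum_ones]
    push_cast
    refine le_trans (Finset.sum_le_sum (g := F) ?_) (Finset.sum_le_sum_of_subset_of_nonneg ?_
      fun y _ _ => hF0 y)
    · intro y hy
      rw [mem_filter] at hy
      obtain ⟨-, hy1, hy2, hy3⟩ := hy
      have hA : AA S ψ D χ y = 1 := by
        unfold AA
        rw [if_pos]
        exact ⟨fun q' hq' => (hy1 q' (hD hq')).2 hq', hy2⟩
      have hP : ∏ q'' ∈ (b.erase q) \ D, ff S ψ (S.bl q) D χ y q'' = 1 := by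
        refine Finset.prod_eq_one fun q'' hq'' => ?_
        rw [mem_sdiff] at hq''
        unfold ff
        rw [if_neg]
        rintro ⟨h7, -, h8, t, ht⟩
        apply ht
        refine hy3 q'' ?_ hq''.2 t
        unfold Sys.rs
        rw [mem_filter]
        exact ⟨hq''.1, h7, h8⟩
      simp only [hF]
      rw [hA, hP]; norm_num
    · intro y hy
      rw [mem_filter] at hy ⊢
      obtain ⟨hy0, hy1, hy2, hy3⟩ := hy
      refine ⟨hy0, fun q' hq' => ?_⟩
      rw [hD', mem_sdiff] at hq'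
      by_contra h
      exact hq'.2 ((hy1 q' hq'.1).1 h)
  have hQ1 : (1 : ℝ) ≤ Fintype.card k := by
    exact_mod_cast Fintype.card_pos
  have hcard : (S.rs b q).card ≤ D.card + D'.card := by
    have h7 : S.rs b q ⊆ S.rg E b q := by
      intro q' hq'
      unfold Sys.rs at hq'
      unfold Sys.rg
      rw [mem_filter] at hq' ⊢
      exact ⟨hq'.1, hq'.2.1, hq'.2.2.ne, hq'.2.2.le.trans hth⟩
    have h8 := card_le_card h7
    have h9 : D'.card + D.card = (S.rg E b q).card := by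
      rw [hD']; exact card_sdiff_add_card_eq_card hD
    omega
  have hL : (0 : ℝ) ≤ (lab k P).card := Nat.cast_nonneg _
  refine (hpsm p B B₀ k U Λ C S ψ E P b q hbP hq D hD χ).trans ?_
  calc (Fintype.card U * Fintype.card k *
      (Fintype.card k : ℝ) ^ (S.rs b q).card / (lab k P).card) * _
      ≤ (Fintype.card U * Fintype.card k *
      (Fintype.card k : ℝ) ^ (S.rs b q).card / (lab k P).card) *
        ∑ f ∈ lab k P with (∀ q ∈ D', f q = 0), F f :=
        mul_le_mul_of_nonneg_left h6 (by positivity)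
    _ ≤ (Fintype.card U * Fintype.card k *
      (Fintype.card k : ℝ) ^ (D.card + D'.card) / (lab k P).card) *
        ∑ f ∈ lab k P with (∀ q ∈ D', f q = 0), F f := by
        refine mul_le_mul_of_nonneg_right ?_ (Finset.sum_nonneg fun y _ => hF0 y)
        refine div_le_div_of_nonneg_right ?_ hL
        refine mul_le_mul_of_nonneg_left ?_ (by positivity)
        exact pow_le_pow_right₀ hQ1 hcard
    _ = (Fintype.card U * Fintype.card k *
      (Fintype.card k : ℝ) ^ D.card / (lab k P).card) *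
        ((Fintype.card k : ℝ) ^ D'.card * ∑ f ∈ lab k P with (∀ q ∈ D', f q = 0), F f) := by
        rw [pow_add]; ring
    _ = _ := by rw [h5]

end part

section inner

variable {p : ℕ} [Fact p.Prime] {B B₀ k U Λ C : Type} [Field k] [Fintype k] [Algebra (ZMod p) k]
    [AddCommGroup U] [Module k U] [Fintype U] [AddCommGroup Λ] [Module k Λ] [Fintype Λ]
    [AddCommGroup C] {S : Sys p B B₀ k U Λ C} {ψ : AddChar k ℂ} {ψ₁ : AddChar (ZMod p) ℂ}
    {g : ℝ → ℝ} {K : ℕ}

lemma log_bd {m I : ℕ} (h : m < 2 ^ I) (hm : 1 ≤ m) :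
    0 < Real.log ((m : ℝ) + 3) ∧ Real.log ((m : ℝ) + 3) ≤ (I : ℝ) + 2 := by
  have h0 : (1 : ℝ) ≤ m := by exact_mod_cast hm
  constructor
  · apply Real.log_pos; linarith
  · have h1 : (m : ℝ) + 3 ≤ 2 ^ (I + 2) := by
      have h2 : m + 3 ≤ 2 ^ (I + 2) := by
        have h3 : 2 ^ (I + 2) = 4 * 2 ^ I := by ring
        omega
      exact_mod_cast h2
    have h2 : Real.log ((m : ℝ) + 3) ≤ Real.log (2 ^ (I + 2)) :=
      Real.log_le_log (by linarith) h1
    rw [Real.log_pow] at h2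
    have h3 : Real.log 2 ≤ 1 := by
      have := Real.log_two_lt_d9; linarith
    have h4 : (0 : ℝ) ≤ ((I + 2 : ℕ) : ℝ) := Nat.cast_nonneg _
    have h5 : ((I + 2 : ℕ) : ℝ) * Real.log 2 ≤ ((I + 2 : ℕ) : ℝ) * 1 :=
      mul_le_mul_of_nonneg_left h3 h4
    push_cast at h2 h5
    linarith

lemma exp_bd (H : S.Hyp ψ ψ₁ g K) {j I : ℕ} {X : ℝ} (hX : 1 ≤ X) {q : B} (hq : S.bl q = j)
    {D : Finset B} (hD1 : ∀ q' ∈ D, S.spl q') (hD2 : Set.InjOn S.bs (D : Set B))
    (hDI : S.nm D < 2 ^ I) (χ : AddChar Λ ℂ) (hc : D.Nonempty ∨ χ ≠ 1) {y : B → k}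
    (hy : ∀ q' ∈ D, y q' ≠ 0) (hU : ∀ x : U, S.fU ψ χ D y x = 1) :
    Real.exp (∑ q'' ∈ S.upto (X / ((S.N q : ℝ) * S.nm D)), (ff S ψ j D χ y q'' - 1) / S.N q'') ≤
      ((max 1 (min j (lg X - (j + 1 + I))) : ℕ) : ℝ) ^ (-(1 / K : ℝ)) *
        (((I : ℝ) + 2) ^ K * Real.exp K) := by
  classical
  set n := min j (lg X - (j + 1 + I)) with hn
  have hnm : 1 ≤ S.nm D := nm_pos S D
  obtain ⟨hl1, hl2⟩ := log_bd hDI hnm
  have hK1 : (1 : ℝ) ≤ K := by exact_mod_cast H.one_le
  have hsum : ∑ q'' ∈ S.upto (X / ((S.N q : ℝ) * S.nm D)), (ff S ψ j D χ y q'' - 1) / S.N q'' ≤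
      0 := by
    refine Finset.sum_nonpos fun q'' _ => ?_
    exact div_nonpos_of_nonpos_of_nonneg (by linarith [ff_le S ψ j D χ y q''])
      (Nat.cast_nonneg _)
  have hI0 : (0 : ℝ) ≤ I := Nat.cast_nonneg _
  have hpow1 : (1 : ℝ) ≤ ((I : ℝ) + 2) ^ K := one_le_pow₀ (by linarith)
  have hexp1 : (1 : ℝ) ≤ Real.exp K := Real.one_le_exp (by positivity)
  rcases Nat.eq_zero_or_pos n with h0 | hpos
  · rw [h0]
    have h1 : ((max 1 0 : ℕ) : ℝ) = 1 := by norm_num
    rw [h1, Real.one_rpow, one_mul]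
    calc Real.exp _ ≤ 1 := Real.exp_le_one_iff.2 hsum
      _ ≤ _ := one_le_mul_of_one_le_of_one_le hpow1 hexp1
  · have hmax : max 1 n = n := max_eq_right hpos
    rw [hmax]
    have hn1 : (1 : ℝ) ≤ n := by exact_mod_cast hpos
    have hsm := H.sm D y χ n hpos (fun q' hq' => ⟨hD1 q' hq', hy q' hq'⟩) hD2 hc hU
    -- the primes of `below n`
    have hnj : n ≤ j := min_le_left _ _
    have hnl : n + (j + 1 + I) ≤ lg X := by
      have h2 : n ≤ lg X - (j + 1 + I) := min_le_right _ _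
      omega
    have hNq : (S.N q : ℝ) * S.nm D ≤ 2 ^ (j + 1 + I) := by
      have h3 : S.N q * S.nm D ≤ 2 ^ (j + 1) * 2 ^ I := by
        apply Nat.mul_le_mul
        · have := N_lt S q
          rw [hq] at this
          exact this.le
        · exact hDI.le
      rw [← pow_add] at h3
      exact_mod_cast h3
    have hNpos : (0 : ℝ) < (S.N q : ℝ) * S.nm D := by
      have h4 : (0 : ℝ) < S.N q := by exact_mod_cast N_pos S q
      have h5 : (0 : ℝ) < S.nm D := by exact_mod_cast nm_pos S D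
      positivity
    have hXlg : (2 : ℝ) ^ (lg X) ≤ X := by
      have h6 : 2 ^ (lg X) ≤ ⌊X⌋₊ := by
        unfold lg
        apply Nat.pow_log_le_self
        have : 1 ≤ ⌊X⌋₊ := Nat.le_floor (by simpa using hX)
        omega
      calc (2 : ℝ) ^ (lg X) = ((2 ^ (lg X) : ℕ) : ℝ) := by push_cast; rfl
        _ ≤ (⌊X⌋₊ : ℝ) := by exact_mod_cast h6
        _ ≤ X := Nat.floor_le (by linarith)
    have hY : (2 : ℝ) ^ n ≤ X / ((S.N q : ℝ) * S.nm D) := by
      rw [le_div_iff₀ hNpos]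
      calc (2 : ℝ) ^ n * ((S.N q : ℝ) * S.nm D) ≤ 2 ^ n * 2 ^ (j + 1 + I) := by gcongr
        _ = 2 ^ (n + (j + 1 + I)) := by rw [← pow_add]
        _ ≤ 2 ^ (lg X) := pow_le_pow_right₀ (by norm_num) hnl
        _ ≤ X := hXlg
    have hYpos : (0 : ℝ) ≤ X / ((S.N q : ℝ) * S.nm D) := (by positivity : (0 : ℝ) ≤ 2 ^ n).trans hY
    have hcmp : (∑ q'' ∈ S.below n with (S.spl q'' ∧ (∀ q' ∈ D, S.bs q' ≠ S.bs q'') ∧
        ∃ t : k, S.fB ψ χ D y q'' t ≠ 1), (1 : ℝ) / S.N q'') ≤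
        ∑ q'' ∈ S.upto (X / ((S.N q : ℝ) * S.nm D)), (1 - ff S ψ j D χ y q'') / S.N q'' := by
      refine le_trans (Finset.sum_le_sum (g := fun q'' => (1 - ff S ψ j D χ y q'') / S.N q'') ?_)
        (Finset.sum_le_sum_of_subset_of_nonneg ?_ ?_)
      · intro q'' hq''
        rw [mem_filter, mem_below] at hq''
        have h7 : ff S ψ j D χ y q'' = 0 := by
          unfold ff
          rw [if_pos]
          exact ⟨hq''.2.1, hq''.2.2.1, lt_of_lt_of_le hq''.1 hnj, hq''.2.2.2⟩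
        simp only [h7]
        norm_num
      · intro q'' hq''
        rw [mem_filter, mem_below] at hq''
        rw [mem_upto S hYpos]
        refine le_trans ?_ hY
        have h8 : S.N q'' ≤ 2 ^ n :=
          (N_lt S q'').le.trans (Nat.pow_le_pow_right two_pos hq''.1)
        exact_mod_cast h8
      · intro q'' _ _
        exact div_nonneg (by linarith [ff_le S ψ j D χ y q'']) (Nat.cast_nonneg _)
    have hneg : ∑ q'' ∈ S.upto (X / ((S.N q : ℝ) * S.nm D)), (ff S ψ j D χ y q'' - 1) / S.N q'' =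
        - ∑ q'' ∈ S.upto (X / ((S.N q : ℝ) * S.nm D)), (1 - ff S ψ j D χ y q'') / S.N q'' := by
      rw [← Finset.sum_neg_distrib]
      exact Finset.sum_congr rfl fun q'' _ => by ring
    have hle : ∑ q'' ∈ S.upto (X / ((S.N q : ℝ) * S.nm D)), (ff S ψ j D χ y q'' - 1) / S.N q'' ≤
        Real.log n * (-(1 / K : ℝ)) + (K * Real.log (Real.log (S.nm D + 3)) + K) := by
      rw [hneg]
      have := hsm.trans hcmp
      linarith
    refine (Real.exp_le_exp.2 hle).trans ?_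
    rw [Real.exp_add, Real.exp_add, ← Real.rpow_def_of_pos (by linarith : (0 : ℝ) < n)]
    refine mul_le_mul_of_nonneg_left ?_ (Real.rpow_nonneg (by linarith) _)
    refine mul_le_mul_of_nonneg_right ?_ (Real.exp_nonneg _)
    rw [Real.exp_nat_mul, Real.exp_log hl1]
    exact pow_le_pow_left₀ hl1.le hl2 K

open Classical in
lemma rsum (H : S.Hyp ψ ψ₁ g K) {j I : ℕ} {X : ℝ} (hX : 1 ≤ X) {q : B} (hq : S.bl q = j)
    {D : Finset B} (hD1 : ∀ q' ∈ D, S.spl q') (hD2 : Set.InjOn S.bs (D : Set B))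
    (hDI : S.nm D < 2 ^ I) (χ : AddChar Λ ℂ) (hc : D.Nonempty ∨ χ ≠ 1) {y : B → k}
    (hy : ∀ q' ∈ D, y q' ≠ 0) (hU : ∀ x : U, S.fU ψ χ D y x = 1) (P : Finset B) :
    ∑ r ∈ P.powerset, (∏ q'' ∈ r, ff S ψ j D χ y q'') *
        Real.exp (-(((S.N q : ℝ) * S.nm D * S.nm r) / X)) ≤
      K * (X / ((S.N q : ℝ) * S.nm D) * min 1 (X / 2 ^ j) * (K * g X)) *
        (((max 1 (min j (lg X - (j + 1 + I))) : ℕ) : ℝ) ^ (-(1 / K : ℝ)) *
        (((I : ℝ) + 2) ^ K * Real.exp K)) := by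
  have hNq : (1 : ℝ) ≤ S.N q := by exact_mod_cast N_pos S q
  have hnD : (1 : ℝ) ≤ S.nm D := by exact_mod_cast nm_pos S D
  have hT : (1 : ℝ) ≤ (S.N q : ℝ) * S.nm D := one_le_mul_of_one_le_of_one_le hNq hnD
  set T : ℝ := (S.N q : ℝ) * S.nm D with hTdef
  have hYpos : 0 < X / T := by positivity
  have hht := H.ht (fun q'' => ff S ψ j D χ y q'') (fun q'' => ⟨ff_nonneg S ψ j D χ y q'', by
    have h1 := ff_le S ψ j D χ y q''
    have h2 : (0 : ℝ) ≤ Fintype.card k := Nat.cast_nonneg _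
    linarith⟩) (X / T) hYpos P
  have hrew : ∀ r : Finset B, ((S.N q : ℝ) * S.nm D * S.nm r) / X = (S.nm r : ℝ) / (X / T) := by
    intro r
    rw [hTdef]
    field_simp
  have h1 : ∑ r ∈ P.powerset, (∏ q'' ∈ r, ff S ψ j D χ y q'') *
        Real.exp (-((T * S.nm r) / X)) =
      ∑ r ∈ P.powerset, (∏ q'' ∈ r, ff S ψ j D χ y q'') * Real.exp (-((S.nm r : ℝ) / (X / T))) := by
    refine Finset.sum_congr rfl fun r _ => ?_
    rw [hTdef, hrew r]
  rw [h1]
  refine hht.trans ?_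
  have hexp := exp_bd H hX hq hD1 hD2 hDI χ hc hy hU
  have hg1 : 1 ≤ g (X / T) := H.g_one _
  have hgX : 1 ≤ g X := H.g_one _
  have hYX : X / T ≤ X := div_le_self (by linarith) hT
  have hg2 : g (X / T) ≤ K * g X := H.g_mono _ _ hYX
  have hN2 : (2 : ℝ) ^ j ≤ T := by
    have h3 : 2 ^ j ≤ S.N q := by rw [← hq]; exact le_N S q
    have h4 : (2 : ℝ) ^ j ≤ S.N q := by exact_mod_cast h3
    rw [hTdef]
    nlinarith
  have hY2 : X / T ≤ X / 2 ^ j := by
    gcongr
  have hmin : min 1 (X / T) ≤ min 1 (X / 2 ^ j) := min_le_min le_rfl hY2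
  have hmin0 : 0 ≤ min 1 (X / T) := le_min zero_le_one hYpos.le
  have hK0 : (0 : ℝ) ≤ K := Nat.cast_nonneg _
  refine mul_le_mul ?_ hexp (Real.exp_nonneg _) ?_
  · refine mul_le_mul_of_nonneg_left ?_ hK0
    refine mul_le_mul ?_ hg2 (by linarith) ?_
    · exact mul_le_mul_of_nonneg_left hmin hYpos.le
    · exact mul_nonneg hYpos.le (hmin0.trans hmin)
  · refine mul_nonneg hK0 (mul_nonneg (mul_nonneg hYpos.le (hmin0.trans hmin)) ?_)
    exact mul_nonneg hK0 (by linarith)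

open Classical in
lemma below_sum (H : S.Hyp ψ ψ₁ g K) (I : ℕ) :
    ∑ q ∈ S.below I, (1 : ℝ) / S.N q ≤ K * (1 + Real.log ((I : ℝ) + 2)) := by
  have hK0 : (0 : ℝ) ≤ K := Nat.cast_nonneg _
  have h1 : ∑ q ∈ S.below I, (1 : ℝ) / S.N q =
      ∑ m ∈ range (I + 1), ∑ q ∈ S.below I with S.bl q = m, (1 : ℝ) / S.N q := by
    rw [Finset.sum_fiberwise_of_maps_to]
    intro q hq
    rw [mem_below] at hq
    rw [mem_range]; omega
  have h2 : ∀ m ∈ range (I + 1), ∑ q ∈ S.below I with S.bl q = m, (1 : ℝ) / S.N q ≤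
      (K : ℝ) / m := by
    intro m _
    rcases Nat.eq_zero_or_pos m with h0 | hm
    · subst h0
      have h3 : (S.below I).filter (fun q => S.bl q = 0) = ∅ := by
        rw [Finset.filter_eq_empty_iff]
        intro q _ h4
        have := bl_pos S q
        omega
      rw [h3]; simp
    · refine le_trans (Finset.sum_le_sum_of_subset_of_nonneg ?_ ?_) (H.che m hm)
      · intro q hq
        rw [mem_filter] at hq
        rw [mem_blk]
        exact hq.2
      · intro q _ _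
        positivity
  rw [h1]
  refine (Finset.sum_le_sum h2).trans ?_
  rw [Finset.sum_range_succ']
  have h5 : ∑ i ∈ range I, (K : ℝ) / ((i + 1 : ℕ) : ℝ) = K * ((harmonic I : ℚ) : ℝ) := by
    rw [harmonic]
    push_cast
    rw [Finset.mul_sum]
    exact Finset.sum_congr rfl fun i _ => by rw [div_eq_mul_inv]
  rw [h5]
  have h6 := harmonic_le_one_add_log I
  have h7 : Real.log (I : ℝ) ≤ Real.log ((I : ℝ) + 2) := by
    rcases Nat.eq_zero_or_pos I with h0 | hI
    · subst h0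
      simp only [Nat.cast_zero, Real.log_zero, zero_add]
      exact Real.log_nonneg (by norm_num)
    · apply Real.log_le_log
      · exact_mod_cast hI
      · linarith
  simp only [Nat.cast_zero, div_zero, add_zero]
  exact mul_le_mul_of_nonneg_left (by linarith) hK0

open Classical in
lemma Dsum (hdec : C_DEC) (H : S.Hyp ψ ψ₁ g K) (I : ℕ) :
    ∑ D ∈ (S.below I).powerset, (Fintype.card k : ℝ) ^ D.card / S.nm D ≤
      Real.exp (Fintype.card k * K) * ((I : ℝ) + 2) ^ (Fintype.card k * K) := by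
  have hQ0 : (0 : ℝ) ≤ Fintype.card k := Nat.cast_nonneg _
  have hI0 : (0 : ℝ) < (I : ℝ) + 2 := by positivity
  have h1 : ∑ D ∈ (S.below I).powerset, (Fintype.card k : ℝ) ^ D.card / S.nm D =
      ∑ D ∈ (S.below I).powerset, ∏ q ∈ D, ((Fintype.card k : ℝ) / S.N q) := by
    refine Finset.sum_congr rfl fun D _ => ?_
    rw [Finset.prod_div_distrib, Finset.prod_const, Sys.nm]
    push_cast
    rfl
  rw [h1, (hdec B (S.below I)).2.2]
  have h2 : ∏ q ∈ S.below I, (1 + (Fintype.card k : ℝ) / S.N q) ≤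
      ∏ q ∈ S.below I, Real.exp ((Fintype.card k : ℝ) / S.N q) := by
    refine Finset.prod_le_prod (fun q _ => by positivity) (fun q _ => ?_)
    rw [add_comm]
    exact Real.add_one_le_exp _
  refine h2.trans ?_
  rw [← Real.exp_sum]
  have h3 : ∑ q ∈ S.below I, (Fintype.card k : ℝ) / S.N q ≤
      Fintype.card k * K + Real.log ((I : ℝ) + 2) * ((Fintype.card k * K : ℕ) : ℝ) := by
    have h4 : ∑ q ∈ S.below I, (Fintype.card k : ℝ) / S.N q =
        Fintype.card k * ∑ q ∈ S.below I, (1 : ℝ) / S.N q := by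
      rw [Finset.mul_sum]
      exact Finset.sum_congr rfl fun q _ => by ring
    rw [h4]
    have h5 := mul_le_mul_of_nonneg_left (below_sum H I) hQ0
    push_cast
    linarith
  refine (Real.exp_le_exp.2 h3).trans (le_of_eq ?_)
  rw [Real.exp_add, ← Real.rpow_def_of_pos hI0, Real.rpow_natCast]

end inner

section final

variable {p : ℕ} [Fact p.Prime] {B B₀ k U Λ C : Type} [Field k] [Fintype k] [Algebra (ZMod p) k]
    [AddCommGroup U] [Module k U] [Fintype U] [AddCommGroup Λ] [Module k Λ] [Fintype Λ]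
    [AddCommGroup C]

lemma filter_le {ι : Type} (s : Finset ι) (P : ι → Prop) [DecidablePred P] (f h : ι → ℝ)
    (h1 : ∀ x ∈ s, P x → f x ≤ h x) (h0 : ∀ x ∈ s, 0 ≤ h x) :
    ∑ x ∈ s with P x, f x ≤ ∑ x ∈ s, h x := by
  refine le_trans (Finset.sum_le_sum (g := h) ?_)
    (Finset.sum_le_sum_of_subset_of_nonneg (filter_subset _ _) fun x hx _ => h0 x hx)
  intro x hx
  rw [mem_filter] at hx
  exact h1 x hx.1 hx.2

variable (S : Sys p B B₀ k U Λ C)

/-- the good moduli -/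
def Good (I : ℕ) (D : Finset B) : Prop :=
  (∀ q' ∈ D, S.spl q') ∧ Set.InjOn S.bs (D : Set B) ∧ S.nm D < 2 ^ I

open Classical in
/-- the summand -/
noncomputable def HH (ψ : AddChar k ℂ) (j I : ℕ) (X : ℝ) (P : Finset B) (q : B)
    (D r : Finset B) : ℝ :=
  if S.bl q = j ∧ Good S I D then
    ∑ χ : AddChar Λ ℂ with (D.Nonempty ∨ χ ≠ 1),
      (Fintype.card U * Fintype.card k * (Fintype.card k : ℝ) ^ D.card / (lab k P).card) *
      ∑ y ∈ lab k P, AA S ψ D χ y * ((∏ q'' ∈ r, ff S ψ j D χ y q'') *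
        Real.exp (-(((S.N q : ℝ) * S.nm D * S.nm r) / X)))
  else 0

lemma HH_nonneg (ψ : AddChar k ℂ) (j I : ℕ) (X : ℝ) (P : Finset B) (q : B)
    (D r : Finset B) : 0 ≤ HH S ψ j I X P q D r := by
  classical
  unfold HH
  split_ifs
  · refine Finset.sum_nonneg fun χ _ => mul_nonneg (by positivity) ?_
    refine Finset.sum_nonneg fun y _ => mul_nonneg (AA_nonneg S ψ D χ y) (mul_nonneg ?_ ?_)
    · exact Finset.prod_nonneg fun q _ => ff_nonneg S ψ _ D χ y q
    · exact Real.exp_nonneg _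
  · exact le_rfl

open Classical in
lemma stepA (hlab : C_LAB) (hpsm : C_PSM) (ψ : AddChar k ℂ) (E j I : ℕ) (X : ℝ) (P b : Finset B)
    (hbP : b ⊆ P) (hFam : S.Fam b) (q : B) (hq : q ∈ b) (hj : S.bl q = j) (hth : j ≤ th E j)
    (D : Finset B) (hD : D ⊆ S.rg E b q) (hDI : Nat.log 2 (S.nm D) < I) :
    ∑ χ : AddChar Λ ℂ with (D.Nonempty ∨ χ ≠ 1),
      ‖S.part ψ E P b q D χ‖ * Real.exp (-(S.nm b / X)) ≤
      HH S ψ j I X P q D ((b.erase q) \ D) := by
  have hDb : D ⊆ b.erase q := by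
    refine hD.trans ?_
    unfold Sys.rg; exact filter_subset _ _
  have hgood : Good S I D := by
    refine ⟨fun q' hq' => ?_, ?_, nm_lt S hDI⟩
    · have h1 := hD hq'
      unfold Sys.rg at h1
      rw [mem_filter] at h1
      exact h1.2.1
    · refine hFam.1.mono ?_
      intro x hx
      exact (erase_subset _ _) (hDb hx)
  unfold HH
  rw [if_pos ⟨hj, hgood⟩]
  refine Finset.sum_le_sum fun χ _ => ?_
  have h1 := part_le S hlab hpsm ψ E P b q hbP hq (by rw [hj]; exact hth) D hD χ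
  have hnm : (S.nm b : ℝ) = (S.N q : ℝ) * S.nm D * S.nm ((b.erase q) \ D) := by
    have h2 : S.nm b = S.N q * S.nm D * S.nm ((b.erase q) \ D) := by
      unfold Sys.nm
      rw [← Finset.mul_prod_erase b _ hq, mul_assoc, mul_comm (∏ q ∈ D, S.N q),
        Finset.prod_sdiff hDb]
    exact_mod_cast h2
  rw [hnm]
  refine (mul_le_mul_of_nonneg_right h1 (Real.exp_nonneg _)).trans (le_of_eq ?_)
  rw [mul_assoc, Finset.sum_mul, hj]
  congr 1
  exact Finset.sum_congr rfl fun y _ => by ring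

open Classical in
lemma stepD {ψ : AddChar k ℂ} {ψ₁ : AddChar (ZMod p) ℂ} {g : ℝ → ℝ} {K : ℕ}
    (hlab : C_LAB) (H : S.Hyp ψ ψ₁ g K) {j I : ℕ} {X : ℝ} (hX : 1 ≤ X) (P : Finset B) (q : B)
    (hj : S.bl q = j) (D : Finset B) (hD : Good S I D) :
    ∑ r ∈ P.powerset, HH S ψ j I X P q D r ≤
      (Fintype.card Λ * (Fintype.card U * Fintype.card k * (Fintype.card k : ℝ) ^ D.card)) *
      (K * (X / ((S.N q : ℝ) * S.nm D) * min 1 (X / 2 ^ j) * (K * g X)) *
        (((max 1 (min j (lg X - (j + 1 + I))) : ℕ) : ℝ) ^ (-(1 / K : ℝ)) *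
        (((I : ℝ) + 2) ^ K * Real.exp K))) := by
  set R : ℝ := (K * (X / ((S.N q : ℝ) * S.nm D) * min 1 (X / 2 ^ j) * (K * g X)) *
        (((max 1 (min j (lg X - (j + 1 + I))) : ℕ) : ℝ) ^ (-(1 / K : ℝ)) *
        (((I : ℝ) + 2) ^ K * Real.exp K))) with hR
  have hgX : 1 ≤ g X := H.g_one _
  have hR0 : 0 ≤ R := by
    rw [hR]
    have h1 : (0 : ℝ) ≤ min 1 (X / 2 ^ j) := le_min zero_le_one (by positivity)
    positivity
  have hL : (0 : ℝ) < (lab k P).card := by
    rw [(hlab B k P).1]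
    have : 0 < Fintype.card k ^ P.card := pow_pos Fintype.card_pos _
    exact_mod_cast this
  set c : ℝ := (Fintype.card U * Fintype.card k * (Fintype.card k : ℝ) ^ D.card) with hc
  have hc0 : 0 ≤ c := by rw [hc]; positivity
  have h1 : ∑ r ∈ P.powerset, HH S ψ j I X P q D r =
      ∑ χ : AddChar Λ ℂ with (D.Nonempty ∨ χ ≠ 1), (c / (lab k P).card) *
        ∑ y ∈ lab k P, AA S ψ D χ y * ∑ r ∈ P.powerset, ((∏ q'' ∈ r, ff S ψ j D χ y q'') *
        Real.exp (-(((S.N q : ℝ) * S.nm D * S.nm r) / X))) := by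
    have h2 : ∀ r ∈ P.powerset, HH S ψ j I X P q D r =
        ∑ χ : AddChar Λ ℂ with (D.Nonempty ∨ χ ≠ 1), (c / (lab k P).card) *
        ∑ y ∈ lab k P, AA S ψ D χ y * ((∏ q'' ∈ r, ff S ψ j D χ y q'') *
        Real.exp (-(((S.N q : ℝ) * S.nm D * S.nm r) / X))) := by
      intro r _
      unfold HH
      rw [if_pos ⟨hj, hD⟩]
    rw [Finset.sum_congr rfl h2, Finset.sum_comm]
    refine Finset.sum_congr rfl fun χ _ => ?_
    rw [← Finset.mul_sum, Finset.sum_comm]
    congr 1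
    refine Finset.sum_congr rfl fun y _ => ?_
    rw [Finset.mul_sum]
  rw [h1]
  have h3 : ∀ χ ∈ (univ : Finset (AddChar Λ ℂ)).filter (fun χ => D.Nonempty ∨ χ ≠ 1),
      (c / (lab k P).card) *
        ∑ y ∈ lab k P, AA S ψ D χ y * ∑ r ∈ P.powerset, ((∏ q'' ∈ r, ff S ψ j D χ y q'') *
        Real.exp (-(((S.N q : ℝ) * S.nm D * S.nm r) / X))) ≤ c * R := by
    intro χ hχ
    rw [mem_filter] at hχ
    have h4 : ∑ y ∈ lab k P, AA S ψ D χ y * ∑ r ∈ P.powerset, ((∏ q'' ∈ r, ff S ψ j D χ y q'') *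
        Real.exp (-(((S.N q : ℝ) * S.nm D * S.nm r) / X))) ≤ ∑ y ∈ lab k P, R := by
      refine Finset.sum_le_sum fun y _ => ?_
      by_cases hy : (∀ q' ∈ D, y q' ≠ 0) ∧ (∀ x : U, S.fU ψ χ D y x = 1)
      · have h5 : AA S ψ D χ y = 1 := by unfold AA; rw [if_pos hy]
        rw [h5, one_mul]
        exact rsum H hX hj hD.1 hD.2.1 hD.2.2 χ hχ.2 hy.1 hy.2 P
      · have h5 : AA S ψ D χ y = 0 := by unfold AA; rw [if_neg hy]
        rw [h5, zero_mul]
        exact hR0
    rw [Finset.sum_const, nsmul_eq_mul] at h4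
    calc _ ≤ (c / (lab k P).card) * ((lab k P).card * R) :=
          mul_le_mul_of_nonneg_left h4 (by positivity)
      _ = c * R := by field_simp
  refine (Finset.sum_le_sum h3).trans ?_
  rw [Finset.sum_const, nsmul_eq_mul]
  have h6 : ((((univ : Finset (AddChar Λ ℂ)).filter (fun χ => D.Nonempty ∨ χ ≠ 1)).card : ℕ) : ℝ) ≤
      Fintype.card Λ := by
    have h7 : ((univ : Finset (AddChar Λ ℂ)).filter (fun χ => D.Nonempty ∨ χ ≠ 1)).card ≤
        Fintype.card Λ := by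
      refine (Finset.card_filter_le _ _).trans ?_
      rw [Finset.card_univ]
      exact (AddChar.card_eq).le
    exact_mod_cast h7
  calc _ ≤ (Fintype.card Λ : ℝ) * (c * R) := mul_le_mul_of_nonneg_right h6 (by positivity)
    _ = _ := by ring

open Classical in
lemma stepC (hdec : C_DEC) (P : Finset B) (H : B → Finset B → Finset B → ℝ)
    (h0 : ∀ q D r, 0 ≤ H q D r) :
    ∑ b ∈ P.powerset, ∑ q ∈ b, ∑ D ∈ (b.erase q).powerset, H q D ((b.erase q) \ D) ≤
      ∑ q ∈ P, ∑ D ∈ P.powerset, ∑ r ∈ P.powerset, H q D r := by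
  have h1 := (hdec B P).1 ℝ (fun q s => ∑ D ∈ s.powerset, H q D (s \ D))
  rw [h1]
  have h2 : ∑ r ∈ P.powerset, ∑ q ∈ P \ r, ∑ D ∈ r.powerset, H q D (r \ D) ≤
      ∑ r ∈ P.powerset, ∑ q ∈ P, ∑ D ∈ r.powerset, H q D (r \ D) := by
    refine Finset.sum_le_sum fun r _ => ?_
    refine Finset.sum_le_sum_of_subset_of_nonneg sdiff_subset fun q _ _ => ?_
    exact Finset.sum_nonneg fun D _ => h0 _ _ _
  refine h2.trans ?_
  rw [Finset.sum_comm]
  refine Finset.sum_le_sum fun q _ => ?_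
  have h3 := (hdec B P).2.1 ℝ (fun D r => H q D r)
  rw [h3, Finset.sum_comm (s := P.powerset) (t := P.powerset)]
  refine Finset.sum_le_sum fun r _ => ?_
  exact Finset.sum_le_sum_of_subset_of_nonneg (Finset.powerset_mono.2 sdiff_subset)
    fun D _ _ => h0 _ _ _

open Classical in
theorem c_sml (hlab : C_LAB) (hdec : C_DEC) (hpsm : C_PSM) : C_SML := by
  intro p _ B B₀ k U Λ C _ _ _ _ _ _ _ _ _ _ _ S ψ ψ₁ g K H
  set c0 : ℝ := Fintype.card Λ * Fintype.card U * Fintype.card k * K ^ 3 * Real.exp K *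
    Real.exp (Fintype.card k * K) with hc0
  refine ⟨max ⌈c0⌉₊ (K + Fintype.card k * K), ?_⟩
  intro E j I X P hj hth hX
  set K' := max ⌈c0⌉₊ (K + Fintype.card k * K) with hK'
  set m : ℝ := min 1 (X / 2 ^ j) with hm
  set M : ℝ := ((max 1 (min j (lg X - (j + 1 + I))) : ℕ) : ℝ) ^ (-(1 / K : ℝ)) with hM
  have hgX : 1 ≤ g X := H.g_one _
  have hm0 : 0 ≤ m := le_min zero_le_one (by positivity)
  have hM0 : 0 ≤ M := by rw [hM]; positivity
  have hX0 : 0 < X := by linarith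
  have hj0 : (0 : ℝ) < j := by exact_mod_cast hj
  have hI0 : (0 : ℝ) ≤ I := Nat.cast_nonneg _
  -- steps A, B
  have hAB : ∑ b ∈ P.powerset with S.Fam b, ∑ q ∈ b with (S.Wt E b q ∧ S.bl q = j),
      ∑ D ∈ (S.rg E b q).powerset with Nat.log 2 (S.nm D) < I,
        ∑ χ : AddChar Λ ℂ with (D.Nonempty ∨ χ ≠ 1),
          ‖S.part ψ E P b q D χ‖ * Real.exp (-(S.nm b / X)) ≤
      ∑ b ∈ P.powerset, ∑ q ∈ b, ∑ D ∈ (b.erase q).powerset,
        HH S ψ j I X P q D ((b.erase q) \ D) := by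
    refine filter_le _ _ _ _ (fun b hb hFam => ?_) (fun b _ => ?_)
    · refine filter_le _ _ _ _ (fun q hq hWt => ?_) (fun q _ => ?_)
      · refine (filter_le _ _ _ _ (fun D hD hDI => ?_) (fun D _ => ?_)).trans
          (Finset.sum_le_sum_of_subset_of_nonneg (f := fun D =>
            HH S ψ j I X P q D ((b.erase q) \ D)) (s := (S.rg E b q).powerset)
            (Finset.powerset_mono.2 (by unfold Sys.rg; exact filter_subset _ _))
            fun D _ _ => HH_nonneg S ψ j I X P q D _)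
        · exact stepA S hlab hpsm ψ E j I X P b (mem_powerset.1 hb) hFam q hq hWt.2 hth D
            (mem_powerset.1 hD) hDI
        · exact HH_nonneg S ψ j I X P q D _
      · exact Finset.sum_nonneg fun D _ => HH_nonneg S ψ j I X P q D _
    · exact Finset.sum_nonneg fun q _ => Finset.sum_nonneg fun D _ => HH_nonneg S ψ j I X P q D _
  refine hAB.trans ?_
  refine (stepC hdec P (fun q D r => HH S ψ j I X P q D r)
    (fun q D r => HH_nonneg S ψ j I X P q D r)).trans ?_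
  -- step E
  set W : ℝ := Fintype.card Λ * Fintype.card U * Fintype.card k * K ^ 2 * Real.exp K *
    ((I : ℝ) + 2) ^ K * m * M * (X * g X) with hW
  have hW0 : 0 ≤ W := by rw [hW]; positivity
  have hE : ∑ q ∈ P, ∑ D ∈ P.powerset, ∑ r ∈ P.powerset, HH S ψ j I X P q D r ≤
      ∑ q ∈ S.blk j, ∑ D ∈ (S.below I).powerset,
        W * (1 / S.N q) * ((Fintype.card k : ℝ) ^ D.card / S.nm D) := by
    have h1 : ∀ q D, ∑ r ∈ P.powerset, HH S ψ j I X P q D r ≤
        if S.bl q = j ∧ Good S I D then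
          W * (1 / S.N q) * ((Fintype.card k : ℝ) ^ D.card / S.nm D) else 0 := by
      intro q D
      by_cases hqD : S.bl q = j ∧ Good S I D
      · rw [if_pos hqD]
        refine (stepD S hlab H hX P q hqD.1 D hqD.2).trans (le_of_eq ?_)
        rw [hW]
        have hN : (S.N q : ℝ) ≠ 0 := by
          have := N_pos S q
          positivity
        have hn : (S.nm D : ℝ) ≠ 0 := by
          have := nm_pos S D
          positivity
        rw [← hm, ← hM]
        field_simp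
      · rw [if_neg hqD]
        refine le_of_eq (Finset.sum_eq_zero fun r _ => ?_)
        unfold HH
        rw [if_neg hqD]
    have h2 : ∀ q D, 0 ≤ W * (1 / S.N q) * ((Fintype.card k : ℝ) ^ D.card / S.nm D) := by
      intro q D; positivity
    calc _ ≤ ∑ q ∈ P, ∑ D ∈ P.powerset, (if S.bl q = j ∧ Good S I D then
          W * (1 / S.N q) * ((Fintype.card k : ℝ) ^ D.card / S.nm D) else 0) :=
          Finset.sum_le_sum fun q _ => Finset.sum_le_sum fun D _ => h1 q D
      _ ≤ ∑ q ∈ P with S.bl q = j, ∑ D ∈ P.powerset with Good S I D,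
          W * (1 / S.N q) * ((Fintype.card k : ℝ) ^ D.card / S.nm D) := by
          rw [Finset.sum_filter]
          refine Finset.sum_le_sum fun q _ => ?_
          by_cases hq : S.bl q = j
          · rw [if_pos hq, Finset.sum_filter]
            refine Finset.sum_le_sum fun D _ => ?_
            simp only [hq, true_and]
            exact le_rfl
          · rw [if_neg hq]
            refine le_of_eq (Finset.sum_eq_zero fun D _ => ?_)
            rw [if_neg (fun h => hq h.1)]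
      _ ≤ _ := by
          refine le_trans (Finset.sum_le_sum (g := fun q => ∑ D ∈ (S.below I).powerset,
            W * (1 / S.N q) * ((Fintype.card k : ℝ) ^ D.card / S.nm D)) ?_)
            (Finset.sum_le_sum_of_subset_of_nonneg ?_ ?_)
          · intro q _
            refine Finset.sum_le_sum_of_subset_of_nonneg ?_ fun D _ _ => h2 q D
            intro D hD
            rw [mem_filter] at hD
            rw [mem_powerset]
            intro q' hq'
            rw [mem_below]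
            have h3 : S.N q' < 2 ^ I := lt_of_le_of_lt (le_nm S hq') hD.2.2.2
            unfold Sys.bl
            exact Nat.log_lt_of_lt_pow (N_pos S q').ne' h3
          · intro q hq
            rw [mem_filter] at hq
            rw [mem_blk]; exact hq.2
          · intro q _ _
            exact Finset.sum_nonneg fun D _ => h2 q D
  refine hE.trans ?_
  have hF : ∑ q ∈ S.blk j, ∑ D ∈ (S.below I).powerset,
        W * (1 / S.N q) * ((Fintype.card k : ℝ) ^ D.card / S.nm D) =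
      W * ((∑ q ∈ S.blk j, (1 : ℝ) / S.N q) *
        ∑ D ∈ (S.below I).powerset, (Fintype.card k : ℝ) ^ D.card / S.nm D) := by
    rw [Finset.sum_mul_sum, Finset.mul_sum]
    refine Finset.sum_congr rfl fun q _ => ?_
    rw [Finset.mul_sum]
    exact Finset.sum_congr rfl fun D _ => by ring
  rw [hF]
  have hche := H.che j hj
  have hD := Dsum hdec H I
  have hK0 : (0 : ℝ) ≤ K := Nat.cast_nonneg _
  have hprod : (∑ q ∈ S.blk j, (1 : ℝ) / S.N q) *
        ∑ D ∈ (S.below I).powerset, (Fintype.card k : ℝ) ^ D.card / S.nm D ≤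
      (K / j) * (Real.exp (Fintype.card k * K) * ((I : ℝ) + 2) ^ (Fintype.card k * K)) :=
    mul_le_mul hche hD (Finset.sum_nonneg fun D _ => by positivity) (by positivity)
  refine (mul_le_mul_of_nonneg_left hprod hW0).trans ?_
  have hc0K : c0 ≤ K' := by
    refine (Nat.le_ceil c0).trans ?_
    rw [hK']
    exact_mod_cast le_max_left _ _
  have hpow : ((I : ℝ) + 2) ^ (K + Fintype.card k * K) ≤ ((I : ℝ) + 2) ^ K' :=
    pow_le_pow_right₀ (by linarith) (le_max_right _ _)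
  have hc00 : 0 ≤ c0 := by rw [hc0]; positivity
  calc W * ((K / j) * (Real.exp (Fintype.card k * K) * ((I : ℝ) + 2) ^ (Fintype.card k * K)))
      = (c0 * ((I : ℝ) + 2) ^ (K + Fintype.card k * K)) * (1 / j * m * M * (X * g X)) := by
        rw [hW, hc0, pow_add]; ring
    _ ≤ (K' * ((I : ℝ) + 2) ^ K') * (1 / j * m * M * (X * g X)) := by
        refine mul_le_mul_of_nonneg_right ?_ (by positivity)
        exact mul_le_mul hc0K hpow (by positivity) (Nat.cast_nonneg _)
    _ = _ := by ring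

end final

end Pool.Agent.Helper82.PP
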